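import Pool.Agent.Helper54.PT.DefsD

set_option autoImplicit false

namespace Pool.Agent.Helper54.PT

open Polynomial Finset Filter Topology Module

section Algebra

variable {ℓ : ℕ} [Fact ℓ.Prime] {ι : Type} [Fintype ι] [DecidableEq ι] (a : ι → ℕ) (i₀ : ι)
  {σ : Type} [Fintype σ] [DecidableEq σ] (i₁ i₂ : σ → ι) (lgl : ι → ι → ZMod ℓ)
  (dR : σ → ZMod ℓ) (sR : σ → σ → ZMod ℓ)

theorem C10_un_add (b b' y y' : Option σ → {j : ι // j ≠ i₀} → ZMod ℓ) (r : σ) (m : ι) :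
    un a i₀ dR sR (b + b') (y + y') r m = un a i₀ dR sR b y r m + un a i₀ dR sR b' y' r m := by
  unfold un
  have h1 : ∀ s, ext a i₀ ((b + b') s) m = ext a i₀ (b s) m + ext a i₀ (b' s) m := by
    intro s
    rw [Pi.add_apply, ext_add]
    rfl
  have h2 : ext a i₀ ((y + y') (some r)) m
      = ext a i₀ (y (some r)) m + ext a i₀ (y' (some r)) m := by
    rw [Pi.add_apply, ext_add]
    rfl
  have h3 : ∀ r', ext a i₀ ((b + b') (some r')) m * sR r r'
      = ext a i₀ (b (some r')) m * sR r r' + ext a i₀ (b' (some r')) m * sR r r' := by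
    intro r'
    rw [h1 (some r'), add_mul]
  rw [h2, h1 none, sum_congr rfl fun r' _ => h3 r', sum_add_distrib]
  ring

/-- C10: the conditions are additive -/
theorem HH_add {N : ZMod ℓ} {b b' y y' : Option σ → {j : ι // j ≠ i₀} → ZMod ℓ}
    {κ : Option σ → ZMod ℓ} (h : HH a i₀ i₁ i₂ lgl dR sR N b y κ)
    (h' : HH a i₀ i₁ i₂ lgl dR sR N b' y' κ) :
    HH a i₀ i₁ i₂ lgl dR sR N (b + b') (y + y') κ := by
  obtain ⟨h1, h2, h3⟩ := h
  obtain ⟨h1', h2', h3'⟩ := h'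
  refine ⟨fun r => ⟨fun m hm1 hm2 => ?_, ?_⟩, fun hk j => ?_, fun hk j => ?_⟩
  · rw [Pi.add_apply, ext_add, Pi.add_apply, (h1 r).1 m hm1 hm2, (h1' r).1 m hm1 hm2, add_zero]
  · rw [C10_un_add, C10_un_add, Pi.add_apply, ext_add, Pi.add_apply]
    have e1 := (h1 r).2
    have e2 := (h1' r).2
    linear_combination e1 + e2
  · have e1 := h2 hk j
    have e2 := h2' hk j
    simp only [Pi.add_apply, mul_add, sum_add_distrib]
    linear_combination e1 + e2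
  · have e1 := h3 hk j
    have e2 := h3' hk j
    have e3 : (fun j : {j : ι // j ≠ i₀} => (κ none + N)⁻¹ *
        (∑ r, dR r * (b + b') (some r) j + (y + y') none j))
        = (fun j : {j : ι // j ≠ i₀} => (κ none + N)⁻¹ * (∑ r, dR r * b (some r) j + y none j))
        + (fun j : {j : ι // j ≠ i₀} => (κ none + N)⁻¹ *
          (∑ r, dR r * b' (some r) j + y' none j)) := by
      funext j
      simp only [Pi.add_apply, mul_add, sum_add_distrib]
      ring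
    rw [e3, map_add, Pi.add_apply, Pi.add_apply, Pi.add_apply, Pi.add_apply, e1, e2]

theorem C11_ext (ha : ¬ ℓ ∣ a i₀) (W : ι → ZMod ℓ) (hW : ∑ j, (a j : ZMod ℓ) * W j = 0)
    (u : {j : ι // j ≠ i₀} → ZMod ℓ) (hu : ∀ j, u j = W j.1) : ext a i₀ u = W := by
  have ha0 : (a i₀ : ZMod ℓ) ≠ 0 := by rwa [Ne, ZMod.natCast_eq_zero_iff]
  funext i
  unfold ext
  split_ifs with h
  · subst h
    have e : ∑ j : {j : ι // j ≠ i}, (a j.1 : ZMod ℓ) * u j
        = ∑ j ∈ univ.erase i, (a j : ZMod ℓ) * W j := by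
      rw [Finset.sum_subtype (univ.erase i) (p := fun j => j ≠ i) (by simp)
        (fun j => (a j : ZMod ℓ) * W j)]
      exact sum_congr rfl fun j _ => by rw [hu j]
    rw [← add_sum_erase _ _ (mem_univ i)] at hW
    rw [e, eq_neg_of_add_eq_zero_right hW]
    field_simp
  · exact hu ⟨i, h⟩

theorem C11_ext_sum (ha : ¬ ℓ ∣ a i₀) (v : {j : ι // j ≠ i₀} → ZMod ℓ) :
    ∑ j, (a j : ZMod ℓ) * ext a i₀ v j = 0 := by
  have ha0 : (a i₀ : ZMod ℓ) ≠ 0 := by rwa [Ne, ZMod.natCast_eq_zero_iff]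
  rw [← add_sum_erase _ _ (mem_univ i₀)]
  have e : ∑ j ∈ univ.erase i₀, (a j : ZMod ℓ) * ext a i₀ v j
      = ∑ j : {j : ι // j ≠ i₀}, (a j.1 : ZMod ℓ) * v j := by
    rw [Finset.sum_subtype (univ.erase i₀) (p := fun j => j ≠ i₀) (by simp)
        (fun j => (a j : ZMod ℓ) * ext a i₀ v j)]
    refine sum_congr rfl fun j _ => ?_
    unfold ext
    rw [dif_neg j.2]
  rw [e]
  unfold ext
  rw [dif_pos rfl]
  field_simp
  ring

/-- the some part of `tauX` as a sum over all indices -/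
theorem C11_tauX_some (hne : ∀ r, i₁ r ≠ i₂ r) (w : ι → ZMod ℓ) (j : ι) (r : σ) :
    tauX a i₁ i₂ lgl w j (some r) = ∑ m, if s(i₁ r, i₂ r) = s(j, m) then
      (a m : ZMod ℓ) * (asum ℓ a)⁻¹ * (w j - w m) else 0 := by
  unfold tauX
  simp only
  split_ifs with h1 h2
  · subst h1
    rw [Finset.sum_eq_single (i₂ r)]
    · rw [if_pos rfl]
    · intro m _ hm
      rw [if_neg]
      intro h
      rw [Sym2.eq_iff] at h
      rcases h with h | h
      · exact hm h.2.symm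
      · exact hne r h.2.symm
    · intro h; exact absurd (mem_univ _) h
  · subst h2
    rw [Finset.sum_eq_single (i₁ r)]
    · rw [if_pos Sym2.eq_swap]
    · intro m _ hm
      rw [if_neg]
      intro h
      rw [Sym2.eq_iff] at h
      rcases h with h | h
      · exact hne r h.1
      · exact hm h.1.symm
    · intro h; exact absurd (mem_univ _) h
  · symm
    refine Finset.sum_eq_zero fun m _ => ?_
    rw [if_neg]
    intro h
    rw [Sym2.eq_iff] at h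
    rcases h with h | h
    · exact h1 h.1.symm
    · exact h2 h.2.symm

theorem C11_sum_some (hne : ∀ r, i₁ r ≠ i₂ r) (w : ι → ZMod ℓ) (r : σ) :
    ∑ j, (a j : ZMod ℓ) * tauX a i₁ i₂ lgl w j (some r) = 0 := by
  have e : ∀ j, (a j : ZMod ℓ) * tauX a i₁ i₂ lgl w j (some r)
      = (if j = i₁ r then (a (i₁ r) : ZMod ℓ) * ((a (i₂ r) : ZMod ℓ) * (asum ℓ a)⁻¹ *
          (w (i₁ r) - w (i₂ r))) else 0)
        + (if j = i₂ r then (a (i₂ r) : ZMod ℓ) * ((a (i₁ r) : ZMod ℓ) * (asum ℓ a)⁻¹ *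
          (w (i₂ r) - w (i₁ r))) else 0) := by
    intro j
    unfold tauX
    simp only
    split_ifs with h1 h2 h3
    · exact absurd (h1.symm.trans h2) (hne r)
    · rw [h1, add_zero]
    · rw [h3, zero_add]
    · ring
  rw [sum_congr rfl fun j _ => e j, sum_add_distrib, sum_ite_eq', sum_ite_eq', if_pos (mem_univ _),
    if_pos (mem_univ _)]
  ring

theorem C11_sum_none (hsym : ∀ i m, lgl i m = lgl m i) (w : ι → ZMod ℓ) :
    ∑ j, (a j : ZMod ℓ) * tauX a i₁ i₂ lgl w j none = 0 := by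
  have e1 : ∑ j, (a j : ZMod ℓ) * tauX a i₁ i₂ lgl w j none
      = ∑ j, ∑ m, ((a j : ZMod ℓ) * ((a m : ZMod ℓ) * (asum ℓ a)⁻¹ * w j * lgl m j)
        - (a j : ZMod ℓ) * ((a m : ZMod ℓ) * (asum ℓ a)⁻¹ * w m * lgl m j)) := by
    refine sum_congr rfl fun j _ => ?_
    unfold tauX
    simp only
    rw [mul_sum]
    exact sum_congr rfl fun m _ => by ring
  rw [e1]
  have e2 : ∑ j, ∑ m, ((a j : ZMod ℓ) * ((a m : ZMod ℓ) * (asum ℓ a)⁻¹ * w j * lgl m j)
        - (a j : ZMod ℓ) * ((a m : ZMod ℓ) * (asum ℓ a)⁻¹ * w m * lgl m j))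
      = ∑ j, ∑ m, (a j : ZMod ℓ) * ((a m : ZMod ℓ) * (asum ℓ a)⁻¹ * w j * lgl m j)
        - ∑ j, ∑ m, (a j : ZMod ℓ) * ((a m : ZMod ℓ) * (asum ℓ a)⁻¹ * w m * lgl m j) := by
    rw [← sum_sub_distrib]
    exact sum_congr rfl fun j _ => sum_sub_distrib _ _
  rw [e2, sub_eq_zero]
  conv_rhs => rw [sum_comm]
  refine sum_congr rfl fun j _ => sum_congr rfl fun m _ => ?_
  rw [hsym j m]
  ring

theorem C11_ext_tau (ha : ∀ i, ¬ ℓ ∣ a i) (hne : ∀ r, i₁ r ≠ i₂ r)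
    (hsym : ∀ i m, lgl i m = lgl m i) (v : {j : ι // j ≠ i₀} → ZMod ℓ) (s : Option σ) :
    ext a i₀ (fun j => tau a i₀ i₁ i₂ lgl v j s)
      = fun i => tauX a i₁ i₂ lgl (ext a i₀ v) i s := by
  refine C11_ext a i₀ (ha i₀) _ ?_ _ fun j => rfl
  cases s with
  | none => exact C11_sum_none a i₁ i₂ lgl hsym _
  | some r => exact C11_sum_some a i₁ i₂ lgl hne _ r

theorem C11_ext_mul (ha : ¬ ℓ ∣ a i₀) (c : ZMod ℓ) (v : {j : ι // j ≠ i₀} → ZMod ℓ) :
    ext a i₀ (fun j => c * v j) = fun i => c * ext a i₀ v i := by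
  refine C11_ext a i₀ ha _ ?_ _ fun j => ?_
  · have h := C11_ext_sum a i₀ ha v
    calc ∑ j, (a j : ZMod ℓ) * (c * ext a i₀ v j) = c * ∑ j, (a j : ZMod ℓ) * ext a i₀ v j := by
          rw [mul_sum]; exact sum_congr rfl fun j _ => by ring
      _ = 0 := by rw [h, mul_zero]
  · show c * v j = c * ext a i₀ v j.1
    unfold ext
    rw [dif_neg j.2]

/-- the main rearrangement -/
theorem C11_un (hne : ∀ r, i₁ r ≠ i₂ r) (hsym : ∀ i m, lgl i m = lgl m i) (w : ι → ZMod ℓ)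
    (r : σ) (i : ι) :
    ∑ r' ∈ univ.erase r, tauX a i₁ i₂ lgl w i (some r') * sR r r' +
      tauX a i₁ i₂ lgl w i none * dR r
      = ∑ m, (a m : ZMod ℓ) * (asum ℓ a)⁻¹ * (w i - w m) * lam i₁ i₂ lgl dR sR r i m := by
  have e1 : ∀ m, (a m : ZMod ℓ) * (asum ℓ a)⁻¹ * (w i - w m) * lam i₁ i₂ lgl dR sR r i m
      = ∑ r' ∈ univ.erase r, (if s(i₁ r', i₂ r') = s(i, m) then
          (a m : ZMod ℓ) * (asum ℓ a)⁻¹ * (w i - w m) else 0) * sR r r'
        + (a m : ZMod ℓ) * (asum ℓ a)⁻¹ * (w i - w m) * lgl m i * dR r := by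
    intro m
    unfold lam
    have e2 : (univ.filter fun r' => r' ≠ r ∧ s(i₁ r', i₂ r') = s(i, m))
        = (univ.erase r).filter fun r' => s(i₁ r', i₂ r') = s(i, m) := by
      ext r'
      simp [mem_filter, mem_erase]
    rw [e2, sum_filter, mul_add, mul_sum, hsym i m]
    congr 1
    · refine sum_congr rfl fun r' _ => ?_
      split_ifs <;> ring
    · ring
  rw [sum_congr rfl fun m _ => e1 m, sum_add_distrib, sum_comm]
  congr 1
  · refine sum_congr rfl fun r' _ => ?_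
    rw [C11_tauX_some a i₁ i₂ lgl hne, sum_mul]
  · unfold tauX
    simp only
    rw [sum_mul]

theorem C11_lam_symm (hsym : ∀ i m, lgl i m = lgl m i) (r : σ) (i m : ι) :
    lam i₁ i₂ lgl dR sR r i m = lam i₁ i₂ lgl dR sR r m i := by
  unfold lam
  rw [hsym i m, Sym2.eq_swap]

theorem C11_deg (hs : ¬ ℓ ∣ ∑ i, a i) (hne : ∀ r, i₁ r ≠ i₂ r) (N : ZMod ℓ)
    (hdeg : ∀ i m, i ≠ m → ∑ r ∈ univ.filter (fun r => s(i₁ r, i₂ r) = s(i, m)), dR r = N)
    (w : ι → ZMod ℓ) (hw : ∑ j, (a j : ZMod ℓ) * w j = 0) (j : ι) :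
    ∑ r, dR r * tauX a i₁ i₂ lgl w j (some r) = N * w j := by
  have hA : asum ℓ a ≠ 0 := by
    unfold asum
    rw [← Nat.cast_sum, Ne, ZMod.natCast_eq_zero_iff]
    exact hs
  have e1 : ∑ r, dR r * tauX a i₁ i₂ lgl w j (some r)
      = ∑ m, (a m : ZMod ℓ) * (asum ℓ a)⁻¹ * (w j - w m) *
        ∑ r ∈ univ.filter (fun r => s(i₁ r, i₂ r) = s(j, m)), dR r := by
    have e0 : ∀ r, dR r * tauX a i₁ i₂ lgl w j (some r) = ∑ m, dR r *
        (if s(i₁ r, i₂ r) = s(j, m) then (a m : ZMod ℓ) * (asum ℓ a)⁻¹ * (w j - w m) else 0) := by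
      intro r
      rw [C11_tauX_some a i₁ i₂ lgl hne, mul_sum]
    rw [sum_congr rfl fun r _ => e0 r, sum_comm]
    refine sum_congr rfl fun m _ => ?_
    rw [sum_filter, mul_sum]
    refine sum_congr rfl fun r _ => ?_
    split_ifs <;> ring
  have e2 : ∀ m, (a m : ZMod ℓ) * (asum ℓ a)⁻¹ * (w j - w m) *
        ∑ r ∈ univ.filter (fun r => s(i₁ r, i₂ r) = s(j, m)), dR r
      = N * (asum ℓ a)⁻¹ * ((a m : ZMod ℓ) * w j - (a m : ZMod ℓ) * w m) := by
    intro m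
    rcases eq_or_ne j m with h | h
    · rw [h]; ring
    · rw [hdeg j m h]; ring
  rw [e1, sum_congr rfl fun m _ => e2 m, ← mul_sum, sum_sub_distrib, hw, sub_zero, ← sum_mul]
  have e3 : ∑ i, (a i : ZMod ℓ) = asum ℓ a := rfl
  rw [e3]
  field_simp

/-- C11: the torsion elements satisfy the conditions -/
theorem HH_tor (ha : ∀ i, ¬ ℓ ∣ a i) (hs : ¬ ℓ ∣ ∑ i, a i) (hne : ∀ r, i₁ r ≠ i₂ r)
    (hsym : ∀ i m, lgl i m = lgl m i) (N : ZMod ℓ)
    (hlam : ∀ r m, m ≠ i₁ r → m ≠ i₂ r →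
      lam i₁ i₂ lgl dR sR r (i₁ r) m = lam i₁ i₂ lgl dR sR r (i₂ r) m)
    (hdeg : ∀ i m, i ≠ m → ∑ r ∈ univ.filter (fun r => s(i₁ r, i₂ r) = s(i, m)), dR r = N)
    (v : {j : ι // j ≠ i₀} → ZMod ℓ) (κ : Option σ → ZMod ℓ) :
    HH a i₀ i₁ i₂ lgl dR sR N (fun s j => tau a i₀ i₁ i₂ lgl v j s) (fun s j => κ s * v j) κ := by
  set w : ι → ZMod ℓ := ext a i₀ v with hw
  have hsum : ∑ j, (a j : ZMod ℓ) * w j = 0 := C11_ext_sum a i₀ (ha i₀) v
  have hA : asum ℓ a ≠ 0 := by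
    unfold asum
    rw [← Nat.cast_sum, Ne, ZMod.natCast_eq_zero_iff]
    exact hs
  have ext1 : ∀ s, ext a i₀ (fun j => tau a i₀ i₁ i₂ lgl v j s)
      = fun i => tauX a i₁ i₂ lgl w i s := fun s => C11_ext_tau a i₀ i₁ i₂ lgl ha hne hsym v s
  have ext2 : ∀ s : Option σ, ext a i₀ (fun j => κ s * v j) = fun i => κ s * w i :=
    fun s => C11_ext_mul a i₀ (ha i₀) (κ s) v
  have hwv : ∀ j : {j : ι // j ≠ i₀}, w j.1 = v j := by
    intro j
    rw [hw]
    unfold ext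
    rw [dif_neg j.2]
  have hD : ∀ j : {j : ι // j ≠ i₀}, ∑ r, dR r * tau a i₀ i₁ i₂ lgl v j (some r) = N * v j := by
    intro j
    rw [← hwv j]
    exact C11_deg a i₁ i₂ lgl dR hs hne N hdeg w hsum j.1
  refine ⟨fun r => ⟨fun m hm1 hm2 => ?_, ?_⟩, fun hk j => ?_, fun hk j => ?_⟩
  · rw [ext1 (some r)]
    show tauX a i₁ i₂ lgl w m (some r) = 0
    unfold tauX
    simp only
    rw [if_neg hm1, if_neg hm2]
  · have ha1 : (a (i₁ r) : ZMod ℓ) ≠ 0 := by rw [Ne, ZMod.natCast_eq_zero_iff]; exact ha _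
    have hu : ∀ i, un a i₀ dR sR (fun s j => tau a i₀ i₁ i₂ lgl v j s) (fun s j => κ s * v j) r i
        = ∑ m, (a m : ZMod ℓ) * (asum ℓ a)⁻¹ * (w i - w m) * lam i₁ i₂ lgl dR sR r i m
          + κ (some r) * w i := by
      intro i
      rw [← C11_un a i₁ i₂ lgl dR sR hne hsym w r i]
      unfold un
      simp only [ext1, ext2]
    have hE : ext a i₀ (fun j => tau a i₀ i₁ i₂ lgl v j (some r)) (i₂ r)
        = (a (i₁ r) : ZMod ℓ) * (asum ℓ a)⁻¹ * (w (i₂ r) - w (i₁ r)) := by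
      rw [ext1 (some r)]
      show tauX a i₁ i₂ lgl w (i₂ r) (some r) = _
      unfold tauX
      show (if i₂ r = i₁ r then _ else if i₂ r = i₂ r then _ else _) = _
      rw [if_neg (hne r).symm, if_pos rfl]
    rw [hu, hu]
    show _ = ext a i₀ (fun j => tau a i₀ i₁ i₂ lgl v j (some r)) (i₂ r) * _
    rw [hE]
    set B := lam i₁ i₂ lgl dR sR r (i₁ r) (i₂ r) with hB
    -- split both sums
    have split : ∀ f : ι → ZMod ℓ, ∑ m, f m = f (i₁ r) + f (i₂ r) +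
        ∑ m ∈ univ.filter (fun m => m ≠ i₁ r ∧ m ≠ i₂ r), f m := by
      intro f
      rw [← add_sum_erase _ _ (mem_univ (i₁ r)),
        ← add_sum_erase _ _ (mem_erase.2 ⟨(hne r).symm, mem_univ (i₂ r)⟩), ← add_assoc]
      congr 1
      refine sum_congr ?_ fun _ _ => rfl
      ext m
      simp only [mem_erase, mem_univ, and_true, mem_filter, true_and]
      exact and_comm
    rw [split fun m => (a m : ZMod ℓ) * (asum ℓ a)⁻¹ * (w (i₁ r) - w m) *
        lam i₁ i₂ lgl dR sR r (i₁ r) m,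
      split fun m => (a m : ZMod ℓ) * (asum ℓ a)⁻¹ * (w (i₂ r) - w m) *
        lam i₁ i₂ lgl dR sR r (i₂ r) m]
    have hsy : lam i₁ i₂ lgl dR sR r (i₂ r) (i₁ r) = B :=
      C11_lam_symm i₁ i₂ lgl dR sR hsym r _ _
    have h1 : ∑ m ∈ univ.filter (fun m => m ≠ i₁ r ∧ m ≠ i₂ r),
        (a m : ZMod ℓ) * (asum ℓ a)⁻¹ * (w (i₁ r) - w m) * lam i₁ i₂ lgl dR sR r (i₁ r) m
        - ∑ m ∈ univ.filter (fun m => m ≠ i₁ r ∧ m ≠ i₂ r),
        (a m : ZMod ℓ) * (asum ℓ a)⁻¹ * (w (i₂ r) - w m) * lam i₁ i₂ lgl dR sR r (i₂ r) m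
        = (asum ℓ a)⁻¹ * (w (i₁ r) - w (i₂ r)) *
          ∑ m ∈ univ.filter (fun m => m ≠ i₁ r ∧ m ≠ i₂ r),
            (a m : ZMod ℓ) * lam i₁ i₂ lgl dR sR r (i₁ r) m := by
      rw [← sum_sub_distrib, mul_sum]
      refine sum_congr rfl fun m hm => ?_
      rw [mem_filter] at hm
      rw [← hlam r m hm.2.1 hm.2.2]
      ring
    unfold rho
    rw [← hB]
    set S := ∑ m ∈ univ.filter (fun m => m ≠ i₁ r ∧ m ≠ i₂ r),
            (a m : ZMod ℓ) * lam i₁ i₂ lgl dR sR r (i₁ r) m with hS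
    rw [hsy]
    set A := asum ℓ a with hAd
    have hinv : (a (i₁ r) : ZMod ℓ) * (a (i₁ r) : ZMod ℓ)⁻¹ = 1 := mul_inv_cancel₀ ha1
    have hAinv : A * A⁻¹ = 1 := mul_inv_cancel₀ hA
    linear_combination h1
      - (A⁻¹ * (w (i₂ r) - w (i₁ r)) * (-(((a (i₁ r) : ZMod ℓ) + a (i₂ r)) * B + S)
        - A * κ (some r))) * hinv
      + κ (some r) * (w (i₂ r) - w (i₁ r)) * hAinv
  · show ∑ r, dR r * tau a i₀ i₁ i₂ lgl v j (some r) + κ none * v j = 0
    rw [hD j]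
    linear_combination (v j) * hk
  · have e : (fun j => (κ none + N)⁻¹ *
        (∑ r, dR r * tau a i₀ i₁ i₂ lgl v j (some r) + κ none * v j)) = v := by
      funext j
      rw [hD j]
      field_simp
      ring
    show tau a i₀ i₁ i₂ lgl v j none = tau a i₀ i₁ i₂ lgl (fun j => (κ none + N)⁻¹ *
        (∑ r, dR r * tau a i₀ i₁ i₂ lgl v j (some r) + κ none * v j)) j none
    rw [e]

end Algebra

end Pool.Agent.Helper54.PT
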