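import Pool.Agent.Helper13.TW.StA

/-!
# Project TW, module INF: infinite concatenation of paths
-/

set_option autoImplicit false

namespace Pool.Agent.Helper36.TW

open Set Topology Pool.Agent.Helper13.TR Pool.Agent.Helper13.TW

variable {S : Type} [TopologicalSpace S]

/-- the first `n` paths -/
private noncomputable def hh (x : ℕ → S) (γ : ∀ n, Path (x n) (x (n + 1))) : ℕ → ℝ → S
  | 0 => fun _ => x 0
  | n + 1 => fun t => if t ≤ n then hh x γ n t else (γ n).extend (t - n)

private theorem hh_succ (x : ℕ → S) (γ : ∀ n, Path (x n) (x (n + 1))) (n : ℕ) (t : ℝ) :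
    hh x γ (n + 1) t = if t ≤ n then hh x γ n t else (γ n).extend (t - n) := rfl

private theorem hh_main (x : ℕ → S) (γ : ∀ n, Path (x n) (x (n + 1))) (n : ℕ) :
    Continuous (hh x γ n) ∧ ∀ t : ℝ, n ≤ t → hh x γ n t = x n := by
  induction n with
  | zero => exact ⟨continuous_const, fun _ _ => rfl⟩
  | succ n ih =>
    constructor
    · refine Continuous.if_le ih.1 ((γ n).continuous_extend.comp (continuous_id.sub
        continuous_const)) continuous_id continuous_const ?_
      intro t ht
      have e : t = n := ht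
      rw [ih.2 t e.ge]
      show x n = (γ n).extend (t - n)
      rw [e, sub_self, Path.extend_zero]
    · intro t ht
      push_cast at ht
      rw [hh_succ, if_neg (by linarith)]
      exact (γ n).extend_of_one_le (by linarith)

private theorem hh_stab (x : ℕ → S) (γ : ∀ n, Path (x n) (x (n + 1))) (n m : ℕ) (h : n ≤ m)
    (t : ℝ) (ht : t ≤ n) : hh x γ m t = hh x γ n t := by
  induction m, h using Nat.le_induction with
  | base => rfl
  | succ m hm ih =>
    have : (n : ℝ) ≤ m := by exact_mod_cast hm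
    rw [hh_succ, if_pos (by linarith), ih]

/-- the infinite concatenation on `[0, ∞)` -/
private noncomputable def gg (x : ℕ → S) (γ : ∀ n, Path (x n) (x (n + 1))) (u : ℝ) : S :=
  hh x γ (⌊u⌋₊ + 1) u

private theorem gg_eq (x : ℕ → S) (γ : ∀ n, Path (x n) (x (n + 1))) (N : ℕ) (u : ℝ)
    (hu : u < N) : gg x γ u = hh x γ N u := by
  unfold gg
  have h1 : u < (⌊u⌋₊ + 1 : ℕ) := by
    push_cast
    exact Nat.lt_floor_add_one u
  rcases le_total (⌊u⌋₊ + 1) N with h | h
  · exact (hh_stab x γ _ _ h u h1.le).symm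
  · exact hh_stab x γ _ _ h u hu.le

private theorem gg_cont (x : ℕ → S) (γ : ∀ n, Path (x n) (x (n + 1))) :
    Continuous (gg x γ) := by
  rw [continuous_iff_continuousAt]
  intro u
  obtain ⟨N, hN⟩ := exists_nat_gt u
  have h1 : gg x γ =ᶠ[𝓝 u] hh x γ N := by
    filter_upwards [Iio_mem_nhds hN] with v hv
    exact gg_eq x γ N v hv
  exact (hh_main x γ N).1.continuousAt.congr h1.symm

private theorem gg_mem (x : ℕ → S) (γ : ∀ n, Path (x n) (x (n + 1))) (U : ℕ → Set S)
    (hU : ∀ n t, γ n t ∈ U n) (u : ℝ) (hu : 0 ≤ u) : gg x γ u ∈ U ⌊u⌋₊ := by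
  have h1 : (⌊u⌋₊ : ℝ) ≤ u := Nat.floor_le hu
  unfold gg
  rw [hh_succ]
  split_ifs with h
  · have e : u = ⌊u⌋₊ := le_antisymm h h1
    rw [(hh_main x γ _).2 u h1]
    have := hU ⌊u⌋₊ 0
    rwa [Path.source] at this
  · have h2 : u - ⌊u⌋₊ ∈ Icc (0 : ℝ) 1 := by
      constructor
      · linarith
      · have := Nat.lt_floor_add_one u
        linarith
    rw [Path.extend_apply _ h2]
    exact hU _ _

theorem hINF : StINF := by
  intro S _ p U x hJ hU
  choose γ hγ using hJ
  set g := gg x γ with hg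
  have hgc : Continuous g := gg_cont x γ
  have hgm : ∀ u : ℝ, 0 ≤ u → g u ∈ U ⌊u⌋₊ := gg_mem x γ U hγ
  have hg0 : g 0 = x 0 := by
    have h1 : g 0 = hh x γ 1 0 := gg_eq x γ 1 0 (by norm_num)
    rw [h1, hh_succ, if_pos (by norm_num)]
    rfl
  -- the path
  set φ : ℝ → S := fun t => if t < 1 then g (t / (1 - t)) else p with hφ
  have hφc : ∀ t : ℝ, t ∈ Icc (0 : ℝ) 1 → ContinuousWithinAt φ (Icc (0 : ℝ) 1) t := by
    intro t ht
    rcases lt_or_eq_of_le ht.2 with h1 | h1
    · have h2 : φ =ᶠ[𝓝 t] fun t => g (t / (1 - t)) := by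
        filter_upwards [Iio_mem_nhds h1] with s hs
        show (if s < 1 then g (s / (1 - s)) else p) = g (s / (1 - s))
        exact if_pos hs
      have h3 : ContinuousAt (fun t : ℝ => g (t / (1 - t))) t := by
        refine ContinuousAt.comp (g := g) hgc.continuousAt ?_
        exact continuousAt_id.div (continuousAt_const.sub continuousAt_id) (by
          show 1 - t ≠ 0
          linarith)
      exact (h3.congr h2.symm).continuousWithinAt
    · subst h1
      have hφ1 : φ 1 = p := if_neg (lt_irrefl _)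
      rw [ContinuousWithinAt, hφ1]
      intro W hW
      obtain ⟨O, hOW, hO, hpO⟩ := mem_nhds_iff.1 hW
      obtain ⟨n₀, hn₀⟩ := hU O hO hpO
      rw [Filter.mem_map]
      have h4 : Ioi ((n₀ : ℝ) / (n₀ + 1)) ∈ 𝓝[Icc (0 : ℝ) 1] (1 : ℝ) := by
        refine mem_nhdsWithin_of_mem_nhds (Ioi_mem_nhds ?_)
        rw [div_lt_one (by positivity)]
        linarith
      filter_upwards [h4, self_mem_nhdsWithin] with s hs hs01
      show φ s ∈ W
      apply hOW
      by_cases h5 : s < 1
      · have h6 : φ s = g (s / (1 - s)) := if_pos h5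
        rw [h6]
        have h7 : 0 < 1 - s := by linarith
        have h8 : (n₀ : ℝ) ≤ s / (1 - s) := by
          rw [le_div_iff₀ h7]
          have h9 : (n₀ : ℝ) / (n₀ + 1) < s := hs
          rw [div_lt_iff₀ (by positivity)] at h9
          linarith
        have h10 : 0 ≤ s / (1 - s) := (Nat.cast_nonneg _).trans h8
        exact hn₀ _ (Nat.le_floor h8) (hgm _ h10)
      · have h6 : φ s = p := if_neg h5
        rw [h6]
        exact hpO
  have hφc' : Continuous fun t : unitInterval => φ t := by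
    have : ContinuousOn φ (Icc (0 : ℝ) 1) := fun t ht => hφc t ht
    exact this.domRestrict
  refine ⟨⟨⟨fun t => φ t, hφc'⟩, ?_, ?_⟩, ?_⟩
  · show φ (0 : ℝ) = x 0
    have e : φ 0 = g (0 / (1 - 0)) := if_pos (by norm_num)
    rw [e, zero_div, hg0]
  · show φ (1 : ℝ) = p
    exact if_neg (lt_irrefl _)
  · intro t
    show φ t ∈ _
    by_cases h5 : (t : ℝ) < 1
    · have h6 : φ t = g (t / (1 - t)) := if_pos h5
      rw [h6]
      left
      refine mem_iUnion.2 ⟨_, hgm _ ?_⟩
      exact div_nonneg t.2.1 (by linarith)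
    · have h6 : φ t = p := if_neg h5
      rw [h6]
      right
      rfl

end Pool.Agent.Helper36.TW
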