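import Pool.Agent.Helper36.TW.C10C11

set_option autoImplicit false

namespace Pool.Agent.Helper54.PT

open Polynomial Finset Filter Topology Module

section Descent

variable {F : Type} [Field F] [Finite F] {ℓ : ℕ} [Fact ℓ.Prime] {ι : Type} [Fintype ι]
  [DecidableEq ι] {σ : Type} [Fintype σ] [DecidableEq σ] {a : ι → ℕ} {e : ι → F[X]}
  {R : σ → Prm F} {i₁ i₂ : σ → ι} {N : ℕ} {lg : F → ZMod ℓ}

omit [Fact ℓ.Prime] [Fintype σ] [DecidableEq σ] in
theorem C21_sum_und (hrec : ∀ P Q : Prm F, P ≠ Q → sy lg Q.1 P.1 = sy lg P.1 Q.1)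
    (D : Finset (pd lg hrec R).P) {M : Type} [AddCommMonoid M] (f : Prm F → M) :
    ∑ P ∈ und lg hrec R D, f P = ∑ p : D, f p.1.1 := by
  unfold und
  rw [sum_map]
  exact (sum_coe_sort D fun p => f p.1).symm

omit [Fact ℓ.Prime] [Fintype σ] [DecidableEq σ] in
theorem C21_sum_erase (hrec : ∀ P Q : Prm F, P ≠ Q → sy lg Q.1 P.1 = sy lg P.1 Q.1)
    (D : Finset (pd lg hrec R).P) (p : D) {M : Type} [AddCommMonoid M] (f : Prm F → M) :
    ∑ P ∈ (und lg hrec R D).erase p.1.1, f P = ∑ p' : D, if p' = p then 0 else f p'.1.1 := by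
  have h1 : ∑ P ∈ (und lg hrec R D).erase p.1.1, f P
      = ∑ P ∈ und lg hrec R D, if P = p.1.1 then 0 else f P := by
    rw [← filter_ne', sum_filter]
    refine sum_congr rfl fun P _ => ?_
    by_cases h : P = p.1.1
    · rw [if_pos h, if_neg (not_not.2 h)]
    · rw [if_neg h, if_pos h]
  rw [h1, C21_sum_und]
  refine sum_congr rfl fun p' _ => ?_
  by_cases h : p' = p
  · rw [if_pos h, if_pos (by rw [h])]
  · rw [if_neg h, if_neg fun h' => h (Subtype.ext (Subtype.ext h'))]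

omit [Fact ℓ.Prime] [Fintype σ] [DecidableEq σ] in
theorem C21_mem_und (hrec : ∀ P Q : Prm F, P ≠ Q → sy lg Q.1 P.1 = sy lg P.1 Q.1)
    (D : Finset (pd lg hrec R).P) (p : D) : p.1.1 ∈ und lg hrec R D :=
  mem_map.2 ⟨p.1, p.2, rfl⟩

omit [Fact ℓ.Prime] [Fintype σ] [DecidableEq σ] in
theorem C21_und_ne (hrec : ∀ P Q : Prm F, P ≠ Q → sy lg Q.1 P.1 = sy lg P.1 Q.1)
    (D : Finset (pd lg hrec R).P) : ∀ P ∈ und lg hrec R D, ∀ r, P ≠ R r := by
  intro P hP r
  obtain ⟨p, _, rfl⟩ := mem_map.1 hP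
  exact p.2 r

/-- C21: the class of a Selmer element lies in the formal Selmer group (uses C15-C21b) -/
theorem selmer_mem_GD (hrec : ∀ P Q : Prm F, P ≠ Q → sy lg Q.1 P.1 = sy lg P.1 Q.1)
    (hS : Setup ℓ a e R i₁ i₂ N) (i₀ : ι) (D : Finset (pd lg hrec R).P) (d : ι → (RatFunc F)ˣ)
    (c15 : (∀ Q : Prm F, ∑ i, (a i : ZMod ℓ) * (ordK Q (d i) : ZMod ℓ) = 0) ∧
      ∑ i, (a i : ZMod ℓ) * lg (lcK (d i : RatFunc F)) = 0)
    (c17 : ∀ P ∈ und lg hrec R D, ∀ j, rsK lg P (d j : RatFunc F) =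
      (ordK P (d j : RatFunc F) : ZMod ℓ) * ∑ P' ∈ (und lg hrec R D).erase P, sy lg P.1 P'.1 +
      ∑ r : σ, tauX a i₁ i₂ (lglE lg e N) (fun m => (ordK P (d m : RatFunc F) : ZMod ℓ)) j
        (some r) * sy lg P.1 (R r).1 +
      tauX a i₁ i₂ (lglE lg e N) (fun m => (ordK P (d m : RatFunc F) : ZMod ℓ)) j none *
        (P.1.natDegree : ZMod ℓ))
    (c18 : ∀ r, (∀ m, m ≠ i₁ r → m ≠ i₂ r → (ordK (R r) (d m : RatFunc F) : ZMod ℓ) = 0) ∧
      rsK lg (R r) (d (i₁ r) : RatFunc F) - rsK lg (R r) (d (i₂ r) : RatFunc F) =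
        (ordK (R r) (d (i₂ r) : RatFunc F) : ZMod ℓ) *
          (rho a i₁ i₂ (lglE lg e N) (fun r => ((R r).1.natDegree : ZMod ℓ))
            (fun r r' => sy lg (R r).1 (R r').1) r -
              asum ℓ a * (a (i₁ r) : ZMod ℓ)⁻¹ * ∑ P ∈ und lg hrec R D, sy lg (R r).1 P.1))
    (c19 : ℓ ∣ ∑ P ∈ und lg hrec R D, P.1.natDegree + N → ∀ j,
      (((d j : RatFunc F).intDegree : ℤ) : ZMod ℓ) = 0)
    (c20 : ¬ ℓ ∣ ∑ P ∈ und lg hrec R D, P.1.natDegree + N → ∀ j,
      lg (lcK (d j : RatFunc F)) = tauX a i₁ i₂ (lglE lg e N)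
      (fun m => ((∑ P ∈ und lg hrec R D, P.1.natDegree + N : ℕ) : ZMod ℓ)⁻¹ *
        (((d m : RatFunc F).intDegree : ℤ) : ZMod ℓ)) j none)
    (c21a : ∀ (P : Prm F) (j : ι), rsK lg P (d j : RatFunc F) =
      ∑ r : σ, (if R r = P then 0 else (ordK (R r) (d j : RatFunc F) : ZMod ℓ) *
        sy lg P.1 (R r).1) +
      ∑ P' ∈ (und lg hrec R D).erase P, (ordK P' (d j : RatFunc F) : ZMod ℓ) * sy lg P.1 P'.1 +
      (P.1.natDegree : ZMod ℓ) * lg (lcK (d j : RatFunc F)))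
    (c21b : ∀ j, (((d j : RatFunc F).intDegree : ℤ) : ZMod ℓ) =
      ∑ r : σ, ((R r).1.natDegree : ZMod ℓ) * (ordK (R r) (d j : RatFunc F) : ZMod ℓ) +
      ∑ P ∈ und lg hrec R D, (P.1.natDegree : ZMod ℓ) * (ordK P (d j : RatFunc F) : ZMod ℓ)) :
    (bcl lg R i₀ d, vcl lg hrec R i₀ D d) ∈ GD (pd lg hrec R) (tau a i₀ i₁ i₂ (lglE lg e N))
      (HH a i₀ i₁ i₂ (lglE lg e N) (fun r => ((R r).1.natDegree : ZMod ℓ))
        (fun r r' => sy lg (R r).1 (R r').1) (N : ZMod ℓ)) D := by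
  have hext := fun (W : ι → ZMod ℓ) (hW : ∑ j, (a j : ZMod ℓ) * W j = 0)
    (u : {j : ι // j ≠ i₀} → ZMod ℓ) (hu : ∀ j, u j = W j.1) =>
      C11_ext a i₀ (hS.ha i₀) W hW u hu
  have eb : ∀ r, ext a i₀ (bcl lg R i₀ d (some r))
      = fun m => (ordK (R r) (d m : RatFunc F) : ZMod ℓ) :=
    fun r => hext _ (c15.1 (R r)) _ fun j => rfl
  have ebn : ext a i₀ (bcl lg R i₀ d none) = fun m => lg (lcK (d m : RatFunc F)) :=
    hext _ c15.2 _ fun j => rfl
  have ev : ∀ p : D, ext a i₀ (vcl lg hrec R i₀ D d p)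
      = fun m => (ordK p.1.1 (d m : RatFunc F) : ZMod ℓ) :=
    fun p => hext _ (c15.1 p.1.1) _ fun j => rfl
  have ey : ∀ s, ext a i₀ (ysum (pd lg hrec R) (vcl lg hrec R i₀ D d) s)
      = fun m => ∑ p : D, (pd lg hrec R).xx p.1 s * (ordK p.1.1 (d m : RatFunc F) : ZMod ℓ) := by
    intro s
    refine hext _ ?_ _ fun j => rfl
    have h1 : ∀ m, (a m : ZMod ℓ) * ∑ p : D, (pd lg hrec R).xx p.1 s *
        (ordK p.1.1 (d m : RatFunc F) : ZMod ℓ)
        = ∑ p : D, (pd lg hrec R).xx p.1 s * ((a m : ZMod ℓ) *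
          (ordK p.1.1 (d m : RatFunc F) : ZMod ℓ)) := by
      intro m
      rw [mul_sum]
      exact sum_congr rfl fun p _ => by ring
    rw [sum_congr rfl fun m _ => h1 m, sum_comm]
    refine sum_eq_zero fun p _ => ?_
    rw [← mul_sum, c15.1 p.1.1, mul_zero]
  have hκn : kap (pd lg hrec R) D none + (N : ZMod ℓ)
      = ((∑ P ∈ und lg hrec R D, P.1.natDegree + N : ℕ) : ZMod ℓ) := by
    rw [Nat.cast_add, Nat.cast_sum, C21_sum_und hrec D fun P => (P.1.natDegree : ZMod ℓ)]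
    congr 1
    exact (sum_coe_sort D fun p => ((pd lg hrec R).xx p none)).symm
  have hdeg : ∀ j : {j : ι // j ≠ i₀}, ∑ r, ((R r).1.natDegree : ZMod ℓ) *
      bcl lg R i₀ d (some r) j + ysum (pd lg hrec R) (vcl lg hrec R i₀ D d) none j
      = (((d j.1 : RatFunc F).intDegree : ℤ) : ZMod ℓ) := by
    intro j
    rw [c21b j.1]
    congr 1
    exact (C21_sum_und hrec D fun P => (P.1.natDegree : ZMod ℓ) *
      (ordK P (d j.1 : RatFunc F) : ZMod ℓ)).symm
  classical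
  simp only [GD, mem_filter, mem_univ, true_and]
  refine ⟨⟨fun r => ⟨fun m hm1 hm2 => ?_, ?_⟩, fun hk j => ?_, fun hk j => ?_⟩,
    fun p j => ?_⟩
  · show ext a i₀ (bcl lg R i₀ d (some r)) m = 0
    rw [eb r]
    exact (c18 r).1 m hm1 hm2
  · -- the bad primes
    have hun : ∀ m, un a i₀ (fun r => ((R r).1.natDegree : ZMod ℓ))
        (fun r r' => sy lg (R r).1 (R r').1) (bcl lg R i₀ d)
        (ysum (pd lg hrec R) (vcl lg hrec R i₀ D d)) r m = rsK lg (R r) (d m : RatFunc F) := by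
      intro m
      unfold un
      rw [c21a (R r) m, ebn, ey (some r)]
      have h1 : ∑ r' ∈ univ.erase r, ext a i₀ (bcl lg R i₀ d (some r')) m *
          sy lg (R r).1 (R r').1 = ∑ r' : σ, (if R r' = R r then 0 else
            (ordK (R r') (d m : RatFunc F) : ZMod ℓ) * sy lg (R r).1 (R r').1) := by
        rw [← filter_ne', sum_filter]
        refine sum_congr rfl fun r' _ => ?_
        by_cases h : r' = r
        · rw [if_neg (not_not.2 h), if_pos (by rw [h])]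
        · rw [if_pos h, if_neg fun h' => h (hS.inj h'), eb r']
      have h2 : ∑ P' ∈ (und lg hrec R D).erase (R r), (ordK P' (d m : RatFunc F) : ZMod ℓ) *
          sy lg (R r).1 P'.1 = ∑ p : D, (pd lg hrec R).xx p.1 (some r) *
            (ordK p.1.1 (d m : RatFunc F) : ZMod ℓ) := by
        rw [erase_eq_of_notMem fun h => C21_und_ne hrec D _ h r rfl, C21_sum_und hrec D
          fun P => (ordK P (d m : RatFunc F) : ZMod ℓ) * sy lg (R r).1 P.1]
        refine sum_congr rfl fun p _ => ?_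
        show (ordK p.1.1 (d m : RatFunc F) : ZMod ℓ) * sy lg (R r).1 p.1.1.1
          = sy lg p.1.1.1 (R r).1 * (ordK p.1.1 (d m : RatFunc F) : ZMod ℓ)
        rw [hrec p.1.1 (R r) (p.1.2 r)]
        ring
      rw [h1, h2]
      ring
    have hκ : kap (pd lg hrec R) D (some r) = ∑ P ∈ und lg hrec R D, sy lg (R r).1 P.1 := by
      rw [C21_sum_und hrec D fun P => sy lg (R r).1 P.1]
      unfold kap
      rw [← sum_coe_sort D fun p => ((pd lg hrec R).xx p (some r))]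
      refine sum_congr rfl fun p _ => ?_
      show sy lg p.1.1.1 (R r).1 = _
      rw [hrec p.1.1 (R r) (p.1.2 r)]
    show un a i₀ (fun r => ((R r).1.natDegree : ZMod ℓ))
        (fun r r' => sy lg (R r).1 (R r').1) (bcl lg R i₀ d)
        (ysum (pd lg hrec R) (vcl lg hrec R i₀ D d)) r (i₁ r) -
      un a i₀ (fun r => ((R r).1.natDegree : ZMod ℓ))
        (fun r r' => sy lg (R r).1 (R r').1) (bcl lg R i₀ d)
        (ysum (pd lg hrec R) (vcl lg hrec R i₀ D d)) r (i₂ r) =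
      ext a i₀ (bcl lg R i₀ d (some r)) (i₂ r) * (rho a i₁ i₂ (lglE lg e N)
        (fun r => ((R r).1.natDegree : ZMod ℓ)) (fun r r' => sy lg (R r).1 (R r').1) r -
          asum ℓ a * (a (i₁ r) : ZMod ℓ)⁻¹ * kap (pd lg hrec R) D (some r))
    rw [hun, hun, hκ, eb r]
    exact (c18 r).2
  · -- infinity, unramified
    show ∑ r, ((R r).1.natDegree : ZMod ℓ) * bcl lg R i₀ d (some r) j +
      ysum (pd lg hrec R) (vcl lg hrec R i₀ D d) none j = 0
    rw [hdeg j]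
    rw [hκn, ZMod.natCast_eq_zero_iff] at hk
    exact c19 hk j.1
  · -- infinity, ramified
    rw [hκn] at hk
    have hk' := hk
    rw [Ne, ZMod.natCast_eq_zero_iff] at hk'
    show lg (lcK (d j.1 : RatFunc F)) = tauX a i₁ i₂ (lglE lg e N)
      (ext a i₀ fun j => (kap (pd lg hrec R) D none + (N : ZMod ℓ))⁻¹ *
        (∑ r, ((R r).1.natDegree : ZMod ℓ) * bcl lg R i₀ d (some r) j +
          ysum (pd lg hrec R) (vcl lg hrec R i₀ D d) none j)) j.1 none
    rw [c20 hk' j.1, hκn]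
    congr 1
    symm
    refine hext _ ?_ _ fun j => ?_
    · have h1 : ∀ m, (a m : ZMod ℓ) * (((∑ P ∈ und lg hrec R D, P.1.natDegree + N : ℕ) :
          ZMod ℓ)⁻¹ * (((d m : RatFunc F).intDegree : ℤ) : ZMod ℓ))
          = ((∑ P ∈ und lg hrec R D, P.1.natDegree + N : ℕ) : ZMod ℓ)⁻¹ *
            (∑ r : σ, ((R r).1.natDegree : ZMod ℓ) *
              ((a m : ZMod ℓ) * (ordK (R r) (d m : RatFunc F) : ZMod ℓ)) +
            ∑ P ∈ und lg hrec R D, (P.1.natDegree : ZMod ℓ) *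
              ((a m : ZMod ℓ) * (ordK P (d m : RatFunc F) : ZMod ℓ))) := by
        intro m
        rw [c21b m, mul_left_comm]
        congr 1
        rw [mul_add, mul_sum, mul_sum]
        congr 1
        · exact sum_congr rfl fun r _ => by ring
        · exact sum_congr rfl fun P _ => by ring
      have h2 : ∑ m, ∑ r : σ, ((R r).1.natDegree : ZMod ℓ) *
          ((a m : ZMod ℓ) * (ordK (R r) (d m : RatFunc F) : ZMod ℓ)) = 0 := by
        rw [sum_comm]
        refine sum_eq_zero fun r _ => ?_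
        rw [← mul_sum, c15.1, mul_zero]
      have h3 : ∑ m, ∑ P ∈ und lg hrec R D, (P.1.natDegree : ZMod ℓ) *
          ((a m : ZMod ℓ) * (ordK P (d m : RatFunc F) : ZMod ℓ)) = 0 := by
        rw [sum_comm]
        refine sum_eq_zero fun P _ => ?_
        rw [← mul_sum, c15.1, mul_zero]
      rw [sum_congr rfl fun m _ => h1 m, ← mul_sum, sum_add_distrib, h2, h3, add_zero, mul_zero]
    · rw [hdeg j]
  · -- the primes of `D`
    unfold pcond
    rw [Fintype.sum_option, Fintype.sum_option]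
    have h1 := c17 p.1.1 (C21_mem_und hrec D p) j.1
    rw [c21a p.1.1 j.1, C21_sum_erase hrec D p, C21_sum_erase hrec D p] at h1
    have h2 : ∑ r : σ, (if R r = p.1.1 then 0 else (ordK (R r) (d j.1 : RatFunc F) : ZMod ℓ) *
        sy lg p.1.1.1 (R r).1) = ∑ r : σ, bcl lg R i₀ d (some r) j *
          (pd lg hrec R).xx p.1 (some r) :=
      sum_congr rfl fun r _ => if_neg fun h => p.1.2 r h.symm
    have h3 : ∀ s, tau a i₀ i₁ i₂ (lglE lg e N) (vcl lg hrec R i₀ D d p) j s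
        = tauX a i₁ i₂ (lglE lg e N) (fun m => (ordK p.1.1 (d m : RatFunc F) : ZMod ℓ)) j.1 s := by
      intro s
      rw [← ev p]
      rfl
    have h4 : ∑ p' : D, (if p' = p then 0 else (vcl lg hrec R i₀ D d p' j -
        vcl lg hrec R i₀ D d p j) * (pd lg hrec R).sym p'.1 p.1)
        = ∑ p' : D, (if p' = p then 0 else (ordK p'.1.1 (d j.1 : RatFunc F) : ZMod ℓ) *
          sy lg p.1.1.1 p'.1.1.1) - (ordK p.1.1 (d j.1 : RatFunc F) : ZMod ℓ) *
          ∑ p' : D, (if p' = p then 0 else sy lg p.1.1.1 p'.1.1.1) := by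
      rw [mul_sum, ← sum_sub_distrib]
      refine sum_congr rfl fun p' _ => ?_
      by_cases h : p' = p
      · rw [if_pos h, if_pos h, if_pos h]; ring
      · rw [if_neg h, if_neg h, if_neg h]
        show ((ordK p'.1.1 (d j.1 : RatFunc F) : ZMod ℓ) - (ordK p.1.1 (d j.1 : RatFunc F) :
          ZMod ℓ)) * sy lg p.1.1.1 p'.1.1.1 = _
        ring
    have h5 : ∑ r : σ, tau a i₀ i₁ i₂ (lglE lg e N) (vcl lg hrec R i₀ D d p) j (some r) *
        (pd lg hrec R).xx p.1 (some r) = ∑ r : σ, tauX a i₁ i₂ (lglE lg e N)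
        (fun m => (ordK p.1.1 (d m : RatFunc F) : ZMod ℓ)) j.1 (some r) * sy lg p.1.1.1 (R r).1 :=
      sum_congr rfl fun r _ => by rw [h3 (some r)]; rfl
    show lg (lcK (d j.1 : RatFunc F)) * (p.1.1.1.natDegree : ZMod ℓ) +
      ∑ r : σ, bcl lg R i₀ d (some r) j * (pd lg hrec R).xx p.1 (some r) +
      ∑ p' : D, (if p' = p then 0 else (vcl lg hrec R i₀ D d p' j -
        vcl lg hrec R i₀ D d p j) * (pd lg hrec R).sym p'.1 p.1) -
      (tau a i₀ i₁ i₂ (lglE lg e N) (vcl lg hrec R i₀ D d p) j none *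
        (p.1.1.1.natDegree : ZMod ℓ) +
        ∑ r : σ, tau a i₀ i₁ i₂ (lglE lg e N) (vcl lg hrec R i₀ D d p) j (some r) *
        (pd lg hrec R).xx p.1 (some r)) = 0
    rw [h4, h3 none, h5, ← h2]
    linear_combination h1

end Descent

end Pool.Agent.Helper54.PT
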