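import Pool.Agent.Helper31.TW.St3

set_option autoImplicit false

/-!
Module LQE of project TW (MP_434a84_lc): one linear set with independent periods.
-/

namespace Pool.Agent.Helper36.TW

open Pool.Agent.Helper31.TW Pool.Agent.Helper15.TS

/-- common denominator -/
theorem common_den {ι : Type} [Fintype ι] (q : ι → ℚ) :
    ∃ D : ℕ, 1 ≤ D ∧ ∃ z : ι → ℤ, ∀ i, (D : ℚ) * q i = z i := by
  classical
  refine ⟨∏ i, (q i).den, Nat.one_le_iff_ne_zero.2 (Finset.prod_ne_zero_iff.2 fun i _ => (q i).den_nz), ?_⟩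
  have h : ∀ i, ∃ z : ℤ, ((∏ i, (q i).den : ℕ) : ℚ) * q i = z := by
    intro i
    obtain ⟨k, hk⟩ := Finset.dvd_prod_of_mem (fun i => (q i).den) (Finset.mem_univ i)
    refine ⟨(k : ℤ) * (q i).num, ?_⟩
    rw [hk]
    push_cast
    have h1 := Rat.mul_den_eq_num (q i)
    rw [← h1]
    ring
  choose z hz using h
  exact ⟨z, hz⟩

theorem frm_add_smul {n : ℕ} (α : Fin n → ℤ) (c : Fin n → ℕ) (x : Fin n → ℕ) :
    ((frm α x - frm α c : ℤ) : ℚ) = ∑ i, (α i : ℚ) * (toQ x i - toQ c i) := by
  unfold frm toQ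
  rw [← Finset.sum_sub_distrib]
  push_cast
  refine Finset.sum_congr rfl fun i _ => ?_
  ring

theorem frm_mod {n : ℕ} (α : Fin n → ℤ) (D : ℕ) (x x' : Fin n → ℕ) (h : ∀ i, x i % D = x' i % D) :
    (D : ℤ) ∣ frm α x - frm α x' := by
  unfold frm
  rw [← Finset.sum_sub_distrib]
  refine Finset.dvd_sum fun i _ => ?_
  rw [← mul_sub]
  refine Dvd.dvd.mul_left ?_ _
  have h1 : (x' i) ≡ (x i) [MOD D] := (h i).symm
  exact (Nat.modEq_iff_dvd.1 h1)

theorem hLQE : StLQE := by
  intro n c P hP
  classical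
  let φ : (P → ℚ) →ₗ[ℚ] (Fin n → ℚ) := Fintype.linearCombination ℚ (fun p : P => toQ p.1)
  have hφ : ∀ t : P → ℚ, φ t = ∑ p, t p • toQ p.1 := fun t => Fintype.linearCombination_apply ℚ _ t
  have hinj : LinearMap.ker φ = ⊥ := by
    rw [LinearMap.ker_eq_bot']
    intro t ht
    rw [hφ] at ht
    have h1 : LinearIndependent ℚ (fun p : P => toQ p.1) := hP
    funext p
    exact Fintype.linearIndependent_iff.1 h1 t ht p
  obtain ⟨g, hg⟩ := φ.exists_leftInverse_of_injective hinj
  have hg' : ∀ t, g (φ t) = t := fun t => by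
    have := LinearMap.congr_fun hg t
    simpa using this
  -- the functionals
  let F : P ⊕ Fin n → (Fin n → ℚ) →ₗ[ℚ] ℚ := Sum.elim (fun p => (LinearMap.proj p).comp g)
    (fun j => (LinearMap.proj j).comp (LinearMap.id - φ.comp g))
  obtain ⟨D, hD, Z, hZ⟩ := common_den (fun q : (P ⊕ Fin n) × Fin n => F q.1 (Pi.single q.2 1))
  have hDq : (0 : ℚ) < D := by exact_mod_cast hD
  have hF : ∀ (k : P ⊕ Fin n) (x : Fin n → ℕ),
      ((frm (fun i => Z (k, i)) x - frm (fun i => Z (k, i)) c : ℤ) : ℚ) = D * F k (toQ x - toQ c) := by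
    intro k x
    rw [frm_add_smul]
    have h1 : F k (toQ x - toQ c) = ∑ i, (toQ x i - toQ c i) * F k (Pi.single i 1) := by
      conv_lhs => rw [pi_eq_sum_univ' (toQ x - toQ c)]
      rw [map_sum]
      refine Finset.sum_congr rfl fun i _ => ?_
      rw [map_smul, smul_eq_mul, Pi.sub_apply]
    rw [h1, Finset.mul_sum]
    refine Finset.sum_congr rfl fun i _ => ?_
    rw [← hZ (k, i)]
    ring
  have hlin : ∀ x : Fin n → ℕ, x ∈ lin c P ↔ (∀ j : Fin n, F (Sum.inr j) (toQ x - toQ c) = 0) ∧
      ∀ p : P, ∃ m : ℕ, F (Sum.inl p) (toQ x - toQ c) = m := by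
    intro x
    constructor
    · rintro ⟨t, rfl⟩
      have h1 : toQ (c + ∑ p ∈ P, t p • p) - toQ c = φ (fun p => (t p.1 : ℚ)) := by
        rw [hφ, ← Finset.sum_coe_sort P]
        funext i
        simp [toQ, Finset.sum_apply]
      rw [h1]
      refine ⟨fun j => ?_, fun p => ⟨t p.1, ?_⟩⟩
      · change (φ (fun p => (t p.1 : ℚ)) - φ (g (φ (fun p => (t p.1 : ℚ))))) j = 0
        rw [hg', sub_self]
        rfl
      · change g (φ (fun p => (t p.1 : ℚ))) p = _
        rw [hg']
    · rintro ⟨h1, h2⟩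
      choose t ht using h2
      have h3 : toQ x - toQ c = φ (g (toQ x - toQ c)) := by
        funext j
        have h4 := h1 j
        change (toQ x - toQ c - φ (g (toQ x - toQ c))) j = 0 at h4
        rw [Pi.sub_apply, sub_eq_zero] at h4
        exact h4
      have h4 : g (toQ x - toQ c) = fun p => (t p : ℚ) := by
        funext p
        exact ht p
      rw [h4, hφ] at h3
      refine ⟨fun p => if hp : p ∈ P then t ⟨p, hp⟩ else 0, ?_⟩
      funext i
      have h5 := congrFun h3 i
      rw [← Finset.sum_coe_sort P]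
      simp only [Pi.sub_apply, Finset.sum_apply, Pi.smul_apply, smul_eq_mul, toQ] at h5
      have h6 : ((x i : ℕ) : ℚ) = ((c i + ∑ p : P, t p * (p.1 i) : ℕ) : ℚ) := by
        push_cast
        linarith
      have h7 : x i = c i + ∑ p : P, t p * (p.1 i) := by exact_mod_cast h6
      rw [h7]
      simp [Finset.sum_apply]
  refine ⟨D, (Finset.univ.image fun k : P ⊕ Fin n =>
      ((fun i => Z (k, i) : Fin n → ℤ), frm (fun i => Z (k, i)) c)) ∪
      (Finset.univ.image fun j : Fin n =>
      ((fun i => -Z (Sum.inr j, i) : Fin n → ℤ), -frm (fun i => Z (Sum.inr j, i)) c)),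
    {x | ∀ p : P, (D : ℤ) ∣ frm (fun i => Z (Sum.inl p, i)) x - frm (fun i => Z (Sum.inl p, i)) c},
    hD, ?_, ?_⟩
  · intro x x' h
    have key : ∀ y y' : Fin n → ℕ, (∀ i, y i % D = y' i % D) →
        (∀ p : P, (D : ℤ) ∣ frm (fun i => Z (Sum.inl p, i)) y - frm (fun i => Z (Sum.inl p, i)) c) →
        ∀ p : P, (D : ℤ) ∣ frm (fun i => Z (Sum.inl p, i)) y' - frm (fun i => Z (Sum.inl p, i)) c := by
      intro y y' hy h1 p
      have h2 := frm_mod (fun i => Z (Sum.inl p, i)) D y' y (fun i => (hy i).symm)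
      have h3 := dvd_add h2 (h1 p)
      rwa [sub_add_sub_cancel] at h3
    exact ⟨key x x' h, key x' x (fun i => (h i).symm)⟩
  · intro x
    rw [hlin x]
    have hneg : ∀ j : Fin n, frm (fun i => -Z (Sum.inr j, i)) x = -frm (fun i => Z (Sum.inr j, i)) x := by
      intro j
      unfold frm
      rw [← Finset.sum_neg_distrib]
      refine Finset.sum_congr rfl fun i _ => ?_
      ring
    constructor
    · rintro ⟨h1, h2⟩
      have e1 : ∀ j : Fin n, frm (fun i => Z (Sum.inr j, i)) x = frm (fun i => Z (Sum.inr j, i)) c := by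
        intro j
        have h3 := hF (Sum.inr j) x
        rw [h1 j, mul_zero] at h3
        have h4 : frm (fun i => Z (Sum.inr j, i)) x - frm (fun i => Z (Sum.inr j, i)) c = 0 := by
          exact_mod_cast h3
        linarith
      have e2 : ∀ p : P, ∃ m : ℕ, frm (fun i => Z (Sum.inl p, i)) x -
          frm (fun i => Z (Sum.inl p, i)) c = D * m := by
        intro p
        obtain ⟨m, hm⟩ := h2 p
        refine ⟨m, ?_⟩
        have h3 := hF (Sum.inl p) x
        rw [hm] at h3
        exact_mod_cast h3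
      refine ⟨fun p => ?_, fun q hq => ?_⟩
      · obtain ⟨m, hm⟩ := e2 p
        exact ⟨m, hm⟩
      · rw [Finset.mem_union, Finset.mem_image, Finset.mem_image] at hq
        rcases hq with ⟨k, -, rfl⟩ | ⟨j, -, rfl⟩
        · rcases k with p | j
          · obtain ⟨m, hm⟩ := e2 p
            have h3 : (0 : ℤ) ≤ D * m := by positivity
            simp only
            linarith
          · exact (e1 j).symm.le
        · simp only
          rw [hneg j, e1 j]
    · rintro ⟨h1, h2⟩
      have a1 : ∀ k : P ⊕ Fin n, frm (fun i => Z (k, i)) c ≤ frm (fun i => Z (k, i)) x := fun k =>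
        h2 (_, _) (Finset.mem_union_left _ (Finset.mem_image.2 ⟨k, Finset.mem_univ _, rfl⟩))
      have a2 : ∀ j : Fin n, frm (fun i => Z (Sum.inr j, i)) x ≤ frm (fun i => Z (Sum.inr j, i)) c := by
        intro j
        have h3 : -frm (fun i => Z (Sum.inr j, i)) c ≤ frm (fun i => -Z (Sum.inr j, i)) x :=
          h2 (_, _) (Finset.mem_union_right _ (Finset.mem_image.2 ⟨j, Finset.mem_univ _, rfl⟩))
        rw [hneg j] at h3
        linarith
      refine ⟨fun j => ?_, fun p => ?_⟩
      · have h3 := hF (Sum.inr j) x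
        have h4 : frm (fun i => Z (Sum.inr j, i)) x - frm (fun i => Z (Sum.inr j, i)) c = 0 := by
          have := a1 (Sum.inr j)
          have := a2 j
          linarith
        rw [h4, Int.cast_zero] at h3
        exact (mul_eq_zero.1 h3.symm).resolve_left hDq.ne'
      · obtain ⟨m, hm⟩ := h1 p
        have h3 := hF (Sum.inl p) x
        rw [hm] at h3
        have h4 : (0 : ℤ) ≤ D * m := by
          rw [← hm]
          have := a1 (Sum.inl p)
          linarith
        have h5 : 0 ≤ m := by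
          by_contra h6
          have h7 : (D : ℤ) * m < 0 := mul_neg_of_pos_of_neg (by exact_mod_cast hD) (not_le.1 h6)
          linarith
        refine ⟨m.toNat, ?_⟩
        push_cast at h3
        have h6 : F (Sum.inl p) (toQ x - toQ c) = m := (mul_left_cancel₀ hDq.ne' h3).symm
        rw [h6]
        have h7 : ((m.toNat : ℤ) : ℚ) = (m : ℚ) := by rw [Int.toNat_of_nonneg h5]
        rw [← h7]
        rfl

end Pool.Agent.Helper36.TW
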